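import Pool.Agent.W401.FL.Defs

/-!
# FL-DISC (helper54): Galois extensions of bounded degree which are unramified outside a finite set
of primes have bounded discriminant
-/

set_option autoImplicit false

namespace Pool.Agent.W54.FL.Disc

open NumberField IsDedekindDomain Module
open scoped nonZeroDivisors Pointwise

section

variable {K L : Type} [Field K] [NumberField K] [Field L] [NumberField L] [Algebra K L]

/-- If the extension of `J` divides the different, then `J` divides the degree. -/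
lemma dvd_degree (J : Ideal (𝓞 K)) (hJ : J ≠ ⊥)
    (h : J.map (algebraMap (𝓞 K) (𝓞 L)) ∣ differentIdeal (𝓞 K) (𝓞 L)) :
    J ∣ Ideal.span {((finrank K L : ℕ) : 𝓞 K)} := by
  have hne : J.map (algebraMap (𝓞 K) (𝓞 L)) ≠ ⊥ := Ideal.map_ne_bot_of_ne_bot hJ
  rw [Ideal.dvd_iff_le] at h ⊢
  have h1 := (differentialIdeal_le_iff (A := 𝓞 K) (K := K) (L := L) (B := 𝓞 L) hne).1 h
  have key : ∀ x ∈ ((J : FractionalIdeal (𝓞 K)⁰ K)⁻¹), ((finrank K L : ℕ) : K) * x ∈
      (1 : FractionalIdeal (𝓞 K)⁰ K) := by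
    intro x hx
    have hx' : algebraMap K L x ∈
        (((J.map (algebraMap (𝓞 K) (𝓞 L)) : Ideal (𝓞 L)) : FractionalIdeal (𝓞 L)⁰ L)⁻¹) := by
      rw [FractionalIdeal.mem_inv_iff (by simpa using hne)]
      intro y hy
      obtain ⟨b, hb, rfl⟩ := (FractionalIdeal.mem_coeIdeal _).1 hy
      unfold Ideal.map at hb
      induction hb using Submodule.span_induction with
      | mem b hb =>
        obtain ⟨c, hc, rfl⟩ := hb
        rw [FractionalIdeal.mem_inv_iff (by simpa using hJ)] at hx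
        obtain ⟨d, hd⟩ := (FractionalIdeal.mem_one_iff _).1
          (hx (algebraMap (𝓞 K) K c) (FractionalIdeal.mem_coeIdeal_of_mem _ hc))
        rw [FractionalIdeal.mem_one_iff]
        refine ⟨algebraMap (𝓞 K) (𝓞 L) d, ?_⟩
        have e1 : algebraMap (𝓞 L) L (algebraMap (𝓞 K) (𝓞 L) d) =
            algebraMap K L (algebraMap (𝓞 K) K d) := by
          rw [← IsScalarTower.algebraMap_apply, ← IsScalarTower.algebraMap_apply]
        have e2 : algebraMap (𝓞 L) L (algebraMap (𝓞 K) (𝓞 L) c) =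
            algebraMap K L (algebraMap (𝓞 K) K c) := by
          rw [← IsScalarTower.algebraMap_apply, ← IsScalarTower.algebraMap_apply]
        rw [e1, hd, e2, map_mul]
      | zero => simp
      | add b b' _ _ h1 h2 =>
        rw [map_add, mul_add]
        exact Submodule.add_mem _ (h1 (FractionalIdeal.mem_coeIdeal_of_mem _ (by assumption)))
          (h2 (FractionalIdeal.mem_coeIdeal_of_mem _ (by assumption)))
      | smul a b hb h1 =>
        rw [smul_eq_mul, map_mul, mul_left_comm, ← Algebra.smul_def]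
        exact Submodule.smul_mem _ _ (h1 (FractionalIdeal.mem_coeIdeal_of_mem _ hb))
    have h2 : Algebra.trace K L (algebraMap K L x) ∈ (1 : Submodule (𝓞 K) K) := by
      apply h1
      refine ⟨algebraMap K L x, ?_, rfl⟩
      exact hx'
    rw [Algebra.trace_algebraMap, nsmul_eq_mul, Submodule.mem_one] at h2
    exact (FractionalIdeal.mem_one_iff _).2 h2
  have h3 : FractionalIdeal.spanSingleton (𝓞 K)⁰ ((finrank K L : ℕ) : K) *
      (J : FractionalIdeal (𝓞 K)⁰ K)⁻¹ ≤ 1 := by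
    rw [FractionalIdeal.spanSingleton_mul_le_iff]
    intro z hz
    exact key z hz
  have hJ0 : (J : FractionalIdeal (𝓞 K)⁰ K) ≠ 0 := by simpa using hJ
  have h4 : FractionalIdeal.spanSingleton (𝓞 K)⁰ ((finrank K L : ℕ) : K) ≤
      (J : FractionalIdeal (𝓞 K)⁰ K) := by
    calc FractionalIdeal.spanSingleton (𝓞 K)⁰ ((finrank K L : ℕ) : K)
        = (FractionalIdeal.spanSingleton (𝓞 K)⁰ ((finrank K L : ℕ) : K) *
          (J : FractionalIdeal (𝓞 K)⁰ K)⁻¹) * J := by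
          rw [mul_assoc, inv_mul_cancel₀ hJ0, mul_one]
      _ ≤ 1 * J := mul_le_mul_left h3 _
      _ = J := one_mul _
  rw [Ideal.span_singleton_le_iff_mem]
  rw [FractionalIdeal.spanSingleton_le_iff_mem, FractionalIdeal.mem_coeIdeal] at h4
  obtain ⟨y, hy, hy2⟩ := h4
  have : y = ((finrank K L : ℕ) : 𝓞 K) := by
    apply IsFractionRing.injective (𝓞 K) K
    rw [hy2, map_natCast]
  rwa [← this]

/-- The different is stable under the Galois group. -/
lemma smul_dvd (σ : L ≃ₐ[K] L) (I : Ideal (𝓞 L)) (hI : I ≠ ⊥)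
    (h : I ∣ differentIdeal (𝓞 K) (𝓞 L)) : σ • I ∣ differentIdeal (𝓞 K) (𝓞 L) := by
  have hne : σ • I ≠ ⊥ := by
    intro h0
    apply hI
    have : σ⁻¹ • (σ • I) = σ⁻¹ • (⊥ : Ideal (𝓞 L)) := by rw [h0]
    rw [inv_smul_smul] at this
    rw [this]
    exact Ideal.map_bot
  rw [Ideal.dvd_iff_le] at h ⊢
  have h1 := (differentialIdeal_le_iff (A := 𝓞 K) (K := K) (L := L) (B := 𝓞 L) hI).1 h
  rw [differentialIdeal_le_iff (A := 𝓞 K) (K := K) (L := L) (B := 𝓞 L) hne]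
  rintro _ ⟨x, hx, rfl⟩
  have e0 : Algebra.trace K L x = Algebra.trace K L (σ⁻¹ x) := by
    exact (Algebra.trace_eq_of_algEquiv (A := K) (σ⁻¹) x).symm
  have hx1 : x ∈ (((σ • I : Ideal (𝓞 L)) : FractionalIdeal (𝓞 L)⁰ L)⁻¹) := hx
  rw [FractionalIdeal.mem_inv_iff (by simpa using hne)] at hx1
  have hx' : (σ⁻¹ x) ∈ ((I : FractionalIdeal (𝓞 L)⁰ L)⁻¹) := by
    rw [FractionalIdeal.mem_inv_iff (by simpa using hI)]
    intro y hy
    obtain ⟨b, hb, rfl⟩ := (FractionalIdeal.mem_coeIdeal _).1 hy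
    obtain ⟨d, hd⟩ := (FractionalIdeal.mem_one_iff _).1
      (hx1 (algebraMap (𝓞 L) L (σ • b)) (FractionalIdeal.mem_coeIdeal_of_mem _
        (Ideal.smul_mem_pointwise_smul σ b I hb)))
    rw [FractionalIdeal.mem_one_iff]
    refine ⟨σ⁻¹ • d, ?_⟩
    have e1 : algebraMap (𝓞 L) L (σ⁻¹ • d) = σ⁻¹ (algebraMap (𝓞 L) L d) := rfl
    have e2 : algebraMap (𝓞 L) L (σ • b) = σ (algebraMap (𝓞 L) L b) := rfl
    rw [e1, hd, e2, map_mul]
    congr 1
    exact AlgEquiv.symm_apply_apply σ _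
  apply h1
  refine ⟨σ⁻¹ x, hx', ?_⟩
  exact e0.symm

/-- The bound for the multiplicity of a prime in the different. -/
lemma local_bound [IsGalois K L] (v : HeightOneSpectrum (𝓞 K)) (P : Ideal (𝓞 L)) [P.IsPrime]
    (hP : P.comap (algebraMap (𝓞 K) (𝓞 L)) = v.asIdeal) (n : ℕ)
    (h : P ^ n ∣ differentIdeal (𝓞 K) (𝓞 L)) :
    P ^ n ∣ (Ideal.span {((finrank K L : ℕ) : 𝓞 K)} * v.asIdeal).map
      (algebraMap (𝓞 K) (𝓞 L)) := by
  classical
  have hv : v.asIdeal ≠ ⊥ := v.ne_bot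
  have hvm : v.asIdeal.IsMaximal := v.isMaximal
  have hlo : P.LiesOver v.asIdeal := ⟨hP.symm⟩
  have hGal : IsGaloisGroup (L ≃ₐ[K] L) (𝓞 K) (𝓞 L) :=
    IsGaloisGroup.of_isFractionRing _ _ _ K L
  have hfac := Ideal.map_algebraMap_eq_finsetProd_pow (R := 𝓞 L) (p := v.asIdeal) hv
  set e := P.ramificationIdx (𝓞 K) with he
  have he0 : 0 < e := P.ramificationIdx_pos (𝓞 K)
  set j := n / e with hj
  have hdiv : P ^ (e * j) ∣ differentIdeal (𝓞 K) (𝓞 L) :=
    (pow_dvd_pow P (Nat.mul_div_le n e)).trans h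
  have hP0 : P ≠ ⊥ := by
    rintro rfl
    apply hv
    rw [← hP, eq_bot_iff]
    intro x hx
    rw [Ideal.mem_comap, Ideal.mem_bot] at hx
    rw [Ideal.mem_bot]
    exact (FaithfulSMul.algebraMap_injective (𝓞 K) (𝓞 L)) (by rw [hx, map_zero])
  have h1 : (v.asIdeal.map (algebraMap (𝓞 K) (𝓞 L))) ^ j ∣ differentIdeal (𝓞 K) (𝓞 L) := by
    rw [hfac, ← Finset.prod_pow]
    apply Finset.prod_dvd_of_coprime
    · intro Q hQ Q' hQ' hne
      simp only [Function.onFun]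
      rw [Finset.mem_coe, Set.mem_toFinset] at hQ hQ'
      obtain ⟨q1, q2⟩ := hQ
      obtain ⟨q1', q2'⟩ := hQ'
      have m1 : Q.IsMaximal := Ideal.IsMaximal.of_liesOver_isMaximal Q v.asIdeal
      have m2 : Q'.IsMaximal := Ideal.IsMaximal.of_liesOver_isMaximal Q' v.asIdeal
      exact ((Ideal.isCoprime_of_isMaximal hne).pow).pow
    · intro Q hQ
      rw [Set.mem_toFinset] at hQ
      obtain ⟨q1, q2⟩ := hQ
      obtain ⟨σ, hσ⟩ := Ideal.exists_smul_eq_of_isGaloisGroup v.asIdeal P Q (L ≃ₐ[K] L)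
      have e1 : Q.ramificationIdx (𝓞 K) = e :=
        Ideal.ramificationIdx_eq_of_isGaloisGroup v.asIdeal Q P (L ≃ₐ[K] L)
      rw [e1, ← pow_mul, ← hσ]
      have e2 : (σ • P) ^ (e * j) = σ • (P ^ (e * j)) := (smul_pow' σ P (e * j)).symm
      rw [e2]
      exact smul_dvd σ _ (pow_ne_zero _ hP0) hdiv
  rw [← Ideal.map_pow] at h1
  have h2 := dvd_degree (v.asIdeal ^ j) (pow_ne_zero _ hv) h1
  have h3 : P ^ e ∣ v.asIdeal.map (algebraMap (𝓞 K) (𝓞 L)) := by
    rw [hfac]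
    have hmem : P ∈ (v.asIdeal.primesOver (𝓞 L)).toFinset :=
      Set.mem_toFinset.2 ⟨inferInstance, hlo⟩
    exact Finset.dvd_prod_of_mem (fun Q : Ideal (𝓞 L) => Q ^ Q.ramificationIdx (𝓞 K)) hmem
  have h4 : P ^ (e * (j + 1)) ∣ (v.asIdeal ^ j * v.asIdeal).map (algebraMap (𝓞 K) (𝓞 L)) := by
    rw [← pow_succ, Ideal.map_pow, pow_mul]
    exact pow_dvd_pow_of_dvd h3 _
  have h5 : (v.asIdeal ^ j * v.asIdeal).map (algebraMap (𝓞 K) (𝓞 L)) ∣
      (Ideal.span {((finrank K L : ℕ) : 𝓞 K)} * v.asIdeal).map (algebraMap (𝓞 K) (𝓞 L)) := by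
    rw [Ideal.dvd_iff_le]
    apply Ideal.map_mono
    rw [← Ideal.dvd_iff_le]
    exact mul_dvd_mul_right h2 _
  exact ((pow_dvd_pow P (Nat.lt_mul_div_succ n he0).le).trans h4).trans h5

end

/-- **FL-DISC.** -/
theorem main : Pool.Agent.W401.FL.TaskDisc := by
  intro K _ _ S hS B
  classical
  set I : ℕ → Ideal (𝓞 K) := fun m => Ideal.span {((m : ℕ) : 𝓞 K)} *
    ∏ v ∈ hS.toFinset, v.asIdeal with hI
  refine ⟨∑ m ∈ Finset.range (B + 1), (I m).absNorm ^ m * (discr K).natAbs ^ m, ?_⟩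
  intro L _ _ _ _ hB hunr
  set m := finrank K L with hm
  have hm0 : 0 < m := finrank_pos
  have hD0 : differentIdeal (𝓞 K) (𝓞 L) ≠ ⊥ := differentIdeal_ne_bot
  have hI0 : I m ≠ ⊥ := by
    rw [hI]
    simp only
    apply mul_ne_zero
    · rw [Ne, Ideal.zero_eq_bot, Ideal.span_singleton_eq_bot, Nat.cast_eq_zero]
      omega
    · rw [Finset.prod_ne_zero_iff]
      intro v _
      exact v.ne_bot
  have hmap : (I m).map (algebraMap (𝓞 K) (𝓞 L)) ≠ ⊥ := Ideal.map_ne_bot_of_ne_bot hI0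
  have hdvd : differentIdeal (𝓞 K) (𝓞 L) ∣ (I m).map (algebraMap (𝓞 K) (𝓞 L)) := by
    rw [UniqueFactorizationMonoid.dvd_iff_emultiplicity_le hD0]
    intro P hP
    rw [emultiplicity_le_emultiplicity_iff]
    intro n hn
    rcases Nat.eq_zero_or_pos n with rfl | hn0
    · rw [pow_zero]; exact one_dvd _
    have hPp : P.IsPrime := Ideal.isPrime_of_prime hP
    have hPD : P ∣ differentIdeal (𝓞 K) (𝓞 L) := (dvd_pow_self P hn0.ne').trans hn
    by_contra hcon
    refine hunr P hPp hP.ne_zero ?_ hPD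
    intro v hv hPv
    apply hcon
    refine (local_bound v P hPv n hn).trans ?_
    rw [Ideal.dvd_iff_le]
    apply Ideal.map_mono
    rw [← Ideal.dvd_iff_le]
    exact mul_dvd_mul_left _ (Finset.dvd_prod_of_mem _ (hS.mem_toFinset.2 hv))
  have h1 : (differentIdeal (𝓞 K) (𝓞 L)).absNorm ≤ (I m).absNorm ^ m := by
    have e1 : finrank (𝓞 K) (𝓞 L) = m := (IsFractionRing.finrank_eq (𝓞 K) K (𝓞 L) L).symm
    have e2 : ((I m).map (algebraMap (𝓞 K) (𝓞 L))).absNorm =
        (I m).absNorm ^ finrank (𝓞 K) (𝓞 L) := Ideal.absNorm_algebraMap _ _ _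
    rw [e1] at e2
    rw [← e2]
    apply Nat.le_of_dvd
    · rw [Nat.pos_iff_ne_zero, Ne, Ideal.absNorm_eq_zero_iff]
      exact hmap
    · exact Ideal.absNorm_dvd_absNorm_of_le (Ideal.dvd_iff_le.1 hdvd)
  rw [natAbs_discr_eq_absNorm_differentIdeal_mul_natAbs_discr_pow K (𝓞 K) L (𝓞 L), ← hm]
  refine (Nat.mul_le_mul_right _ h1).trans ?_
  exact Finset.single_le_sum (f := fun m => (I m).absNorm ^ m * (discr K).natAbs ^ m)
    (fun _ _ => Nat.zero_le _) (Finset.mem_range.2 (by omega))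

end Pool.Agent.W54.FL.Disc
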