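import Pool.Agent.W401.FL.Defs

/-!
# FL-HM (helper54): Hermite-Minkowski for the absolute Galois group of a number field
-/

set_option autoImplicit false

namespace Pool.Agent.W54.FL.HM

open NumberField IsDedekindDomain Module Pool.Agent.W401.Cheb Pool.Agent.W401.FL

/-- the subfield as a subfield over the rational numbers -/
noncomputable def toQ {K : Type} [Field K] [NumberField K] (U : Subgroup (GK K)) :
    IntermediateField ℚ (AlgebraicClosure K) :=
  (IntermediateField.fixedField U).restrictScalars ℚ

lemma toQ_inj {K : Type} [Field K] [NumberField K] {U V : Subgroup (GK K)}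
    (hU : IsClosed (U : Set (GK K))) (hV : IsClosed (V : Set (GK K))) (h : toQ U = toQ V) :
    U = V := by
  have h1 : IntermediateField.fixedField U = IntermediateField.fixedField V :=
    IntermediateField.restrictScalars_injective ℚ h
  have e1 := InfiniteGalois.fixingSubgroup_fixedField (⟨U, hU⟩ : ClosedSubgroup (GK K))
  have e2 := InfiniteGalois.fixingSubgroup_fixedField (⟨V, hV⟩ : ClosedSubgroup (GK K))
  change (IntermediateField.fixedField U).fixingSubgroup = U at e1
  change (IntermediateField.fixedField V).fixingSubgroup = V at e2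
  rw [← e1, h1, e2]

theorem main : TaskHM := by
  intro hDisc hUnr K _ _ S hS B
  classical
  obtain ⟨C, hC⟩ := hDisc K S hS B
  set 𝒰 : Set (Subgroup (GK K)) := {U | U.Normal ∧ IsOpen (U : Set (GK K)) ∧
    Nat.card (GK K ⧸ U) ≤ B ∧
    ∀ v : HeightOneSpectrum (𝓞 K), v ∉ S → ∀ σ : GK K, IsInert v σ → σ ∈ U} with h𝒰
  have hfin : 𝒰.Finite := by
    apply Set.Finite.of_finite_image (f := toQ)
    · have hfin2 := (finite_of_discr_bdd (AlgebraicClosure K) C).image Subtype.val
      apply hfin2.subset
      rintro _ ⟨U, ⟨h1, h2, h3, h4⟩, rfl⟩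
      have hcl : IsClosed (U : Set (GK K)) := U.isClosed_of_isOpen h2
      have e1 := InfiniteGalois.fixingSubgroup_fixedField (⟨U, hcl⟩ : ClosedSubgroup (GK K))
      change (IntermediateField.fixedField U).fixingSubgroup = U at e1
      set F := IntermediateField.fixedField U with hF
      have hfd : FiniteDimensional K F := by
        rw [← InfiniteGalois.isOpen_iff_finite, e1]
        exact h2
      have hgal : IsGalois K F := by
        rw [← InfiniteGalois.normal_iff_isGalois, e1]
        exact h1
      have hfdQ : FiniteDimensional ℚ F := FiniteDimensional.trans ℚ K F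
      have hnf : NumberField F := ⟨⟩
      have hcard : finrank K F ≤ B := by
        have : (⟨U, hcl⟩ : ClosedSubgroup (GK K)).Normal := h1
        rw [← IsGalois.card_aut_eq_finrank]
        have := Nat.card_congr
          (InfiniteGalois.normalAutEquivQuotient (⟨U, hcl⟩ : ClosedSubgroup (GK K))).toEquiv
        change Nat.card (GK K ⧸ U) = Nat.card Gal(F/K) at this
        rw [← this]
        exact h3
      have hd : (discr F).natAbs ≤ C := by
        apply hC F hcard
        intro P hP hP0 hPS
        have hv0 : P.comap (algebraMap (𝓞 K) (𝓞 F)) ≠ ⊥ := by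
          exact Ideal.IsIntegral.comap_ne_bot (R := 𝓞 K) (A := 𝓞 F) hP0
        refine hUnr K F F.val ⟨P.comap (algebraMap (𝓞 K) (𝓞 F)), Ideal.comap_isPrime _ _, hv0⟩
          ?_ P hP rfl
        intro σ hσ x
        have hσU := h4 _ (fun hv => hPS _ hv rfl) σ hσ
        exact (IntermediateField.mem_fixedField_iff _ _).1 x.2 σ hσU
      have hd' : |discr F| ≤ (C : ℤ) := by
        rw [Int.abs_eq_natAbs]
        exact_mod_cast hd
      exact ⟨⟨toQ U, hfdQ⟩, hd', rfl⟩
    · intro U hU V hV h
      exact toQ_inj (U.isClosed_of_isOpen hU.2.1) (V.isClosed_of_isOpen hV.2.1) h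
  refine ⟨sInf 𝒰, ?_, ?_, ?_⟩
  · refine ⟨fun n hn g => ?_⟩
    rw [Subgroup.mem_sInf] at hn ⊢
    intro U hU
    exact hU.1.conj_mem n (hn U hU) g
  · rw [Subgroup.coe_sInf]
    exact hfin.isOpen_biInter fun U hU => hU.2.1
  · intro U h1 h2 h3 h4
    exact sInf_le ⟨h1, h2, h3, h4⟩

end Pool.Agent.W54.FL.HM
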